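import Pool.Agent.Helper59.DM.Lab

namespace Pool.Agent.Helper59.DM

open Pool.Agent.Helper56.Dio Filter

/-- The four vectors. -/
def pv : Fin 4 → ℤ := ![1, 2, 1, 3]
def qv : Fin 4 → ℤ := ![0, 1, 1, 2]

theorem pv_pos (i : Fin 4) : 1 ≤ pv i := by fin_cases i <;> simp [pv]
theorem qv_nonneg (i : Fin 4) : 0 ≤ qv i := by fin_cases i <;> simp [qv]

theorem pq_facts : ∀ i j : Fin 4, i ≠ j → 1 ≤ pv i * qv j + pv j * qv i ∧
    ((pv i * qv j - pv j * qv i) ^ 2 = 1 ∧ ¬ ((i = 0 ∧ j = 3) ∨ (i = 3 ∧ j = 0)) ∨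
      (pv i * qv j - pv j * qv i) ^ 2 = 4 ∧ ((i = 0 ∧ j = 3) ∨ (i = 3 ∧ j = 0))) := by
  decide

theorem pv_nine : ∀ i : Fin 4, pv i ^ 2 = 9 → i = 3 := by
  decide

theorem sq_of_mul_sq {k n : ℤ} (hk : k ≠ 0) (h : IsSquare (k ^ 2 * n)) : IsSquare n := by
  obtain ⟨w, hw⟩ := h
  have hdvd : k ∣ w := by
    rw [← Int.pow_dvd_pow_iff (two_ne_zero)]
    exact ⟨n, by rw [sq w, ← hw]⟩
  obtain ⟨v, rfl⟩ := hdvd
  refine ⟨v, ?_⟩
  have : k ^ 2 * n = k ^ 2 * (v * v) := by rw [hw]; ring
  exact mul_left_cancel₀ (pow_ne_zero 2 hk) this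

/-- The integer version of the choice of the four labels. -/
theorem dia_int (D : Finset ℤ) (x y : ℤ) (hx : x ∈ D) (hy : y ∈ D) (hxy : x ≠ y)
    (hpos : ∀ e ∈ D, 0 < e) (hD : ∀ e ∈ D, ∀ e' ∈ D, e ≠ e' → ¬ IsSquare (e * e')) :
    ∃ g : Fin 4 → ℤ, (∀ i, 0 < g i) ∧ (∀ e ∈ D, ∀ i, ¬ IsSquare (e * g i)) ∧
      (∀ e ∈ D, ∀ i, IsSquare (e * g i + 1) ↔ (i = 0 ∧ e = x) ∨ (i = 3 ∧ e = y)) ∧
      (∀ i j, i ≠ j → ¬ IsSquare (g i * g j)) ∧
      (∀ i j, i ≠ j → (IsSquare (g i * g j + 1) ↔ ¬ ((i = 0 ∧ j = 3) ∨ (i = 3 ∧ j = 0)))) := by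
  have hx0 := hpos x hx
  have hy0 := hpos y hy
  have hnsq : ¬ IsSquare (9 * y * x) := by
    intro h
    have : IsSquare ((3 : ℤ) ^ 2 * (y * x)) := by
      have e9 : (3 : ℤ) ^ 2 * (y * x) = 9 * y * x := by ring
      rw [e9]
      exact h
    exact hD y hy x hx hxy.symm (sq_of_mul_sq (by norm_num) this)
  have ha : 0 < 9 * y := by linarith
  obtain ⟨s, t, hs, ht, hst⟩ : ∃ s t : ℤ, 1 ≤ s ∧ 1 ≤ t ∧ s ^ 2 - 9 * y * x * t ^ 2 = 1 := by
    obtain ⟨s, t, hs, ht, hst⟩ := pell_nat (9 * y).toNat x.toNat (by omega) (by omega) (by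
      rw [isSquare_cast (z := 9 * y * x)]
      · exact hnsq
      · push_cast
        rw [Int.toNat_of_nonneg hx0.le, Int.toNat_of_nonneg ha.le])
    refine ⟨s, t, by exact_mod_cast hs, by exact_mod_cast ht, ?_⟩
    have h1 : (s : ℤ) ^ 2 = ((9 * y).toNat : ℤ) * (x.toNat : ℤ) * (t : ℤ) ^ 2 + 1 := by
      exact_mod_cast hst
    rw [Int.toNat_of_nonneg hx0.le, Int.toNat_of_nonneg ha.le] at h1
    linarith
  set a : ℤ := 9 * y with hadef
  have h : s ^ 2 - a * x * t ^ 2 = 1 := hst
  -- the special case e = x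
  have hspec : ∀ i : Fin 4, i ≠ 0 → ∀ ε : ℤ, ∃ N : ℕ, ∀ n, N ≤ n →
      ¬ IsSquare (x * Lq a x s t (pv i) (qv i) n + ε) := by
    intro i hi ε
    apply Lq_b_not ha hx0 hnsq hs ht h _ _ _ (pv_pos i)
    fin_cases i
    · exact absurd rfl hi
    · simp [qv]
    · simp [qv]
    · simp [qv]
  choose! N hN using hspec
  set N1 : ℕ := 3 + ∑ i : Fin 4, (N i 0 + N i 1) with hN1
  have hNle : ∀ i, N i 0 ≤ N1 ∧ N i 1 ≤ N1 := by
    intro i
    have : N i 0 + N i 1 ≤ ∑ i : Fin 4, (N i 0 + N i 1) :=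
      Finset.single_le_sum (f := fun i => N i 0 + N i 1) (fun _ _ => Nat.zero_le _)
        (Finset.mem_univ i)
    omega
  -- the thin set
  have hthin : Thin (⋃ e ∈ D.filter (fun e => e ≠ x), (⋃ i ∈ (Finset.univ : Finset (Fin 4)),
      ({n | e * pv i ^ 2 ≠ a ∧ IsSquare (a * e * Zs a x s t (pv i) (qv i * a) n ^ 2 -
        a * (e * pv i ^ 2 - a))} ∪
       {n | IsSquare (a * e * Zs a x s t (pv i) (qv i * a) n ^ 2 - a * e * pv i ^ 2)}))) := by
    refine thin_biUnion _ _ (fun e he => thin_biUnion _ _ (fun i _ => ?_))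
    obtain ⟨heD, hex⟩ := Finset.mem_filter.mp he
    have he0 := hpos e heD
    have hbd : ¬ IsSquare (x * e) := hD x hx e heD (Ne.symm hex)
    have hp := pv_pos i
    have hq := qv_nonneg i
    refine Thin.union ?_ ?_
    · by_cases hea : e * pv i ^ 2 = a
      · exact Thin.mono thin_empty (by rintro n ⟨h1, _⟩; exact absurd hea h1)
      · refine Thin.mono (sq_thin' ha hx0 hnsq hs ht h (pv i) (qv i * a) (by linarith)
          e (a * (e * pv i ^ 2 - a)) he0
          (mul_ne_zero ha.ne' (sub_ne_zero.mpr hea)) hbd) ?_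
        rintro n ⟨_, h1⟩
        exact h1
    · exact sq_thin' ha hx0 hnsq hs ht h (pv i) (qv i * a) (by linarith) e
        (a * e * pv i ^ 2) he0 (by positivity) hbd
  obtain ⟨n, hnN, hgood⟩ := hthin.gap 1 N1
  have hgood := hgood 0 one_pos
  rw [add_zero] at hgood
  -- facts about n
  have hX : 4 ≤ X a x s t n := by
    have h1 := X_ge ha hx0 hs ht n
    have h2 : (3 : ℤ) ≤ n := by exact_mod_cast (by omega : 3 ≤ n)
    linarith
  have hY : 2 ≤ Y a x s t n := by
    have h1 := X_le_aY ha hx0 hs ht n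
    obtain ⟨g1, g2⟩ := st_pos ha hx0 hs ht n
    have h2 : (3 : ℤ) ≤ n := by exact_mod_cast (by omega : 3 ≤ n)
    unfold Y
    have h3 : 1 ≤ x * (st (a * x) s t n).2 :=
      one_le_mul_of_one_le_of_one_le (by linarith) (by linarith)
    linarith
  have hcX := cc_X h n
  have hcY := cc_Y h n
  have hc : 0 < cc a x s t n := by
    by_contra hcon
    push Not at hcon
    have h1 : a * cc a x s t n ≤ 0 := mul_nonpos_of_nonneg_of_nonpos ha.le hcon
    nlinarith
  have hLpos : ∀ i, 0 < Lq a x s t (pv i) (qv i) n := by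
    intro i
    have hp := pv_pos i
    have hq := qv_nonneg i
    unfold Lq
    have h1 : 0 < pv i ^ 2 * cc a x s t n := by positivity
    have h2 : 0 ≤ 2 * pv i * qv i * X a x s t n := by positivity
    have h3 : 0 ≤ qv i ^ 2 * a := by positivity
    linarith
  have hold : ∀ e ∈ D, e ≠ x → ∀ i, (e * pv i ^ 2 ≠ a → ¬ IsSquare (e * Lq a x s t (pv i) (qv i) n + 1)) ∧
      ¬ IsSquare (e * Lq a x s t (pv i) (qv i) n) := by
    intro e he hex i
    rw [Set.mem_iUnion₂] at hgood
    push Not at hgood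
    have h1 := hgood e (Finset.mem_filter.mpr ⟨he, hex⟩)
    rw [Set.mem_iUnion₂] at h1
    push Not at h1
    have h1 := h1 i (Finset.mem_univ i)
    rw [Set.mem_union, not_or] at h1
    obtain ⟨h2, h3⟩ := h1
    have hLa := Lq_a h (pv i) (qv i) n
    constructor
    · rintro hea ⟨w, hw⟩
      apply h2
      refine ⟨hea, a * w, ?_⟩
      show a * e * (pv i * X a x s t n + qv i * a) ^ 2 - a * (e * pv i ^ 2 - a) = a * w * (a * w)
      rw [← hLa]
      linear_combination a ^ 2 * hw
    · rintro ⟨w, hw⟩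
      apply h3
      refine ⟨a * w, ?_⟩
      show a * e * (pv i * X a x s t n + qv i * a) ^ 2 - a * e * pv i ^ 2 = a * w * (a * w)
      rw [← hLa]
      linear_combination a ^ 2 * hw
  have hyL : IsSquare (y * Lq a x s t (pv 3) (qv 3) n + 1) := by
    refine ⟨X a x s t n + 6 * y, ?_⟩
    have hLa := Lq_a h (pv 3) (qv 3) n
    have e1 : pv 3 = 3 := rfl
    have e2 : qv 3 = 2 := rfl
    rw [e1, e2] at hLa ⊢
    have h9 : (9 : ℤ) * (y * Lq a x s t 3 2 n + 1) =
        9 * ((X a x s t n + 6 * y) * (X a x s t n + 6 * y)) := by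
      rw [hadef] at hLa ⊢
      linear_combination hLa
    linarith
  have hxc : IsSquare (x * Lq a x s t (pv 0) (qv 0) n + 1) := by
    refine ⟨Y a x s t n, ?_⟩
    have e1 : pv 0 = 1 := rfl
    have e2 : qv 0 = 0 := rfl
    rw [e1, e2]
    unfold Lq
    linear_combination hcY
  have hpair : ∀ i j, i ≠ j → ∃ k B : ℤ, Lq a x s t (pv i) (qv i) n * Lq a x s t (pv j) (qv j) n =
      B ^ 2 - k ^ 2 ∧ 4 ≤ B ∧ (k ^ 2 = 1 ∧ ¬ ((i = 0 ∧ j = 3) ∨ (i = 3 ∧ j = 0)) ∨
        k ^ 2 = 4 ∧ ((i = 0 ∧ j = 3) ∨ (i = 3 ∧ j = 0))) := by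
    intro i j hij
    have hm := Lq_mul h (pv i) (qv i) (pv j) (qv j) n
    refine ⟨pv i * qv j - pv j * qv i, pv i * pv j * cc a x s t n +
      (pv i * qv j + pv j * qv i) * X a x s t n + qv i * qv j * a, by linarith, ?_, ?_⟩
    · have h1 : 1 ≤ pv i * pv j * cc a x s t n := by
        have := pv_pos i
        have := pv_pos j
        have : 0 < pv i * pv j * cc a x s t n := by positivity
        linarith
      have h2 : 1 ≤ pv i * qv j + pv j * qv i := (pq_facts i j hij).1
      have h3 : 0 ≤ qv i * qv j * a := by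
        have := qv_nonneg i
        have := qv_nonneg j
        positivity
      have h4 : X a x s t n ≤ (pv i * qv j + pv j * qv i) * X a x s t n :=
        le_mul_of_one_le_left (by linarith) h2
      linarith
    · exact (pq_facts i j hij).2
  refine ⟨fun i => Lq a x s t (pv i) (qv i) n, hLpos, ?_, ?_, ?_, ?_⟩
  · intro e he i
    by_cases hex : e = x
    · rw [hex]
      by_cases hi : i = 0
      · rw [hi]
        have e1 : x * Lq a x s t (pv 0) (qv 0) n = Y a x s t n ^ 2 - 1 := by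
          have e1 : pv 0 = 1 := rfl
          have e2 : qv 0 = 0 := rfl
          rw [e1, e2]
          unfold Lq
          linear_combination hcY
        rw [e1]
        exact not_sq_near one_pos (by linarith) (by linarith)
      · have := hN i hi 0 n ((hNle i).1.trans hnN)
        rwa [add_zero] at this
    · exact (hold e he hex i).2
  · intro e he i
    by_cases hex : e = x
    · rw [hex]
      by_cases hi : i = 0
      · rw [hi]
        simp only [true_and, hxc, true_iff]
        left; trivial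
      · have h1 := hN i hi 1 n ((hNle i).2.trans hnN)
        constructor
        · intro h2; exact absurd h2 h1
        · rintro (⟨h2, _⟩ | ⟨_, h2⟩)
          · exact absurd h2 hi
          · exact absurd h2 hxy
    · by_cases hea : e * pv i ^ 2 = a
      · -- then e = y and i = 3
        have hey : e = y := by
          by_contra hne
          apply hD e he y hy hne
          apply sq_of_mul_sq (k := pv i) (by have := pv_pos i; linarith)
          refine ⟨3 * y, ?_⟩
          rw [hadef] at hea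
          linear_combination y * hea
        have hi3 : i = 3 := by
          rw [hey, hadef] at hea
          have h9 : pv i ^ 2 = 9 := by
            have : y * (pv i ^ 2) = y * 9 := by linarith
            exact mul_left_cancel₀ hy0.ne' this
          exact pv_nine i h9
        rw [hi3, hey]
        constructor
        · intro _; right; exact ⟨rfl, rfl⟩
        · intro _; exact hyL
      · have h1 := (hold e he hex i).1 hea
        constructor
        · intro h2; exact absurd h2 h1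
        · rintro (⟨_, h2⟩ | ⟨h2, h3⟩)
          · exact absurd h2 hex
          · exfalso
            apply hea
            rw [h2, h3, hadef]
            have e1 : pv 3 = 3 := rfl
            rw [e1]; ring
  · intro i j hij
    obtain ⟨k, B, h1, h2, h3 | h3⟩ := hpair i j hij
    · show ¬ IsSquare (Lq a x s t (pv i) (qv i) n * Lq a x s t (pv j) (qv j) n)
      rw [h1, h3.1]
      exact not_sq_near one_pos (by linarith) (by linarith)
    · show ¬ IsSquare (Lq a x s t (pv i) (qv i) n * Lq a x s t (pv j) (qv j) n)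
      rw [h1, h3.1]
      exact not_sq_near (by norm_num) (by linarith) (by linarith)
  · intro i j hij
    obtain ⟨k, B, h1, h2, h3 | h3⟩ := hpair i j hij
    · show IsSquare (Lq a x s t (pv i) (qv i) n * Lq a x s t (pv j) (qv j) n + 1) ↔ _
      rw [h1, h3.1]
      constructor
      · intro _; exact h3.2
      · intro _; exact ⟨B, by ring⟩
    · show IsSquare (Lq a x s t (pv i) (qv i) n * Lq a x s t (pv j) (qv j) n + 1) ↔ _
      rw [h1, h3.1]
      constructor
      · intro h4
        exfalso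
        have : B ^ 2 - 4 + 1 = B ^ 2 - 3 := by ring
        rw [this] at h4
        exact not_sq_near (by norm_num) (by linarith) (by linarith) h4
      · intro h4; exact absurd h3.2 h4

end Pool.Agent.Helper59.DM
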