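import Pool.Agent.Helper59.DM.Gph

namespace Pool.Agent.Helper59.DM

open Pool.Agent.Helper56.Dio

/-- A finite graph of maximum degree at most 3, each cubic component of which contains two
triangles with a common edge `ab`, is Diophantine. -/
theorem subcubic {V : Type*} [Fintype V] [DecidableEq V] (G : SimpleGraph V)
    [DecidableRel G.Adj] (hdeg : ∀ v, G.degree v ≤ 3)
    (hcub : ∀ v, (∀ u, G.Reachable v u → G.degree u = 3) →
      ∃ a b c d, G.Reachable v a ∧ c ≠ d ∧ G.Adj a b ∧ G.Adj a c ∧ G.Adj a d ∧ G.Adj b c ∧
        G.Adj b d) : IsDiophantine G := by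
  obtain ⟨f, hf⟩ := strong_all G
    (by
      intro S hS
      by_cases h : ∀ v ∈ S, 3 ≤ (S.filter (fun w => G.Adj v w)).card
      · left
        intro v hv
        refine ⟨G.neighborFinset v, ?_, ?_, ?_⟩
        · have h1 : (S.filter (fun w => G.Adj v w)) ⊆ G.neighborFinset v := by
            intro w hw
            rw [SimpleGraph.mem_neighborFinset]
            exact (Finset.mem_filter.mp hw).2
          have h2 := Finset.card_le_card h1
          have h3 := h v hv
          have h4 := hdeg v
          rw [← SimpleGraph.card_neighborFinset_eq_degree] at h4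
          omega
        · have h1 : (S.filter (fun w => G.Adj v w)) ⊆ G.neighborFinset v := by
            intro w hw
            rw [SimpleGraph.mem_neighborFinset]
            exact (Finset.mem_filter.mp hw).2
          have h3 := h v hv
          have h4 := hdeg v
          rw [← SimpleGraph.card_neighborFinset_eq_degree] at h4
          have h5 := Finset.eq_of_subset_of_card_le h1 (by omega)
          intro w hw
          rw [← h5] at hw
          exact (Finset.mem_filter.mp hw).1
        · intro w
          rw [SimpleGraph.mem_neighborFinset]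
      · right
        push Not at h
        obtain ⟨v, hv, hlt⟩ := h
        refine ⟨v, hv, ?_⟩
        have h1 : (S.filter (fun w => G.Adj v w)).card ≤ 2 := by omega
        rcases Nat.lt_or_ge (S.filter (fun w => G.Adj v w)).card 2 with h2 | h2
        · rcases Nat.lt_or_ge (S.filter (fun w => G.Adj v w)).card 1 with h3 | h3
          · refine ⟨v, v, fun w hw hwv => ?_⟩
            have h4 : (S.filter (fun w => G.Adj v w)) = ∅ := Finset.card_eq_zero.mp (by omega)
            have h5 : w ∈ S.filter (fun w => G.Adj v w) := Finset.mem_filter.mpr ⟨hw, hwv.symm⟩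
            rw [h4] at h5
            exact absurd h5 (Finset.notMem_empty w)
          · obtain ⟨x, hx⟩ := Finset.card_eq_one.mp
              (show (S.filter (fun w => G.Adj v w)).card = 1 by omega)
            refine ⟨x, x, fun w hw hwv => ?_⟩
            have h5 : w ∈ S.filter (fun w => G.Adj v w) := Finset.mem_filter.mpr ⟨hw, hwv.symm⟩
            rw [hx, Finset.mem_singleton] at h5
            exact Or.inl h5
        · obtain ⟨x, y, _, hxy⟩ := Finset.card_eq_two.mp
            (show (S.filter (fun w => G.Adj v w)).card = 2 by omega)
          refine ⟨x, y, fun w hw hwv => ?_⟩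
          have h5 : w ∈ S.filter (fun w => G.Adj v w) := Finset.mem_filter.mpr ⟨hw, hwv.symm⟩
          rw [hxy, Finset.mem_insert, Finset.mem_singleton] at h5
          exact h5)
    (by
      intro S hS hall
      obtain ⟨v, hv⟩ := hS
      have hreach : ∀ u, G.Reachable v u → u ∈ S := by
        rintro u ⟨p⟩
        induction p with
        | nil => exact hv
        | cons hadj _ ih =>
          apply ih
          obtain ⟨N, _, hN2, hN3⟩ := hall _ hv
          exact hN2 ((hN3 _).mp hadj)
      have hd3 : ∀ u ∈ S, G.degree u = 3 := by
        intro u hu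
        obtain ⟨N, hN1, _, hN3⟩ := hall u hu
        rw [← SimpleGraph.card_neighborFinset_eq_degree, ← hN1]
        congr 1
        ext w
        rw [SimpleGraph.mem_neighborFinset, hN3]
      obtain ⟨a, b, c, d, ha, hcd, hab, hac, had, hbc, hbd⟩ :=
        hcub v (fun u hu => hd3 u (hreach u hu))
      exact ⟨a, hreach a ha, b, c, d, hab, hac, had, hbc, hbd, hcd⟩)
    _ Finset.univ rfl
  exact ⟨f, fun v => hf.1 v (Finset.mem_univ v),
    fun u v huv => hf.inj (Finset.mem_univ u) (Finset.mem_univ v) huv,
    fun u v huv => (hf.2 u (Finset.mem_univ u) v (Finset.mem_univ v) huv).2⟩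

end Pool.Agent.Helper59.DM
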