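import Pool.Agent.Helper59.DM.Same

namespace Pool.Agent.Helper59.DM

open Pool.Agent.Helper56.Dio

variable {V : Type*} [DecidableEq V] {G : SimpleGraph V}

/-- The choice of the four labels in both cases. -/
theorem dia_any (D : Finset ℤ) (x y : ℤ) (hx : x ∈ D) (hy : y ∈ D)
    (hpos : ∀ e ∈ D, 0 < e) (hD : ∀ e ∈ D, ∀ e' ∈ D, e ≠ e' → ¬ IsSquare (e * e')) :
    ∃ g : Fin 4 → ℤ, (∀ i, 0 < g i) ∧ (∀ e ∈ D, ∀ i, ¬ IsSquare (e * g i)) ∧
      (∀ e ∈ D, ∀ i, IsSquare (e * g i + 1) ↔ (i = 0 ∧ e = x) ∨ (i = 3 ∧ e = y)) ∧
      (∀ i j, i ≠ j → ¬ IsSquare (g i * g j)) ∧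
      (∀ i j, i ≠ j → (IsSquare (g i * g j + 1) ↔ ¬ ((i = 0 ∧ j = 3) ∨ (i = 3 ∧ j = 0)))) := by
  by_cases hxy : x = y
  · rw [← hxy]
    exact dia_same D x hx hpos hD
  · exact dia_int D x y hx hy hxy hpos hD

/-- A diamond whose two ends have one further neighbour each can be added to a labelling. -/
theorem add_diamond {S : Finset V} {f : V → ℕ} (h : Strong G S f) (u v : V) (hu : u ∈ S)
    (hv : v ∈ S) (p : Fin 4 → V) (hp : Function.Injective p) (hpS : ∀ i, p i ∉ S)
    (hS : ∀ i, ∀ w ∈ S, (G.Adj w (p i) ↔ (i = 0 ∧ w = u) ∨ (i = 3 ∧ w = v)))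
    (hpp : ∀ i j, i ≠ j → (G.Adj (p i) (p j) ↔ ¬ ((i = 0 ∧ j = 3) ∨ (i = 3 ∧ j = 0)))) :
    ∃ f' : V → ℕ, Strong G (S ∪ Finset.univ.image p) f' := by
  classical
  obtain ⟨g, g1, g2, g3, g4, g5⟩ := dia_any (S.image (fun w => (f w : ℤ))) (f u : ℤ) (f v : ℤ)
    (Finset.mem_image_of_mem _ hu) (Finset.mem_image_of_mem _ hv)
    (by
      intro e he
      obtain ⟨w, hw, rfl⟩ := Finset.mem_image.mp he
      exact_mod_cast h.1 w hw)
    (by
      intro e he e' he' hne
      obtain ⟨w, hw, rfl⟩ := Finset.mem_image.mp he
      obtain ⟨w', hw', rfl⟩ := Finset.mem_image.mp he'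
      have hww : w ≠ w' := by rintro rfl; exact hne rfl
      rw [← isSquare_cast (n := f w * f w') (by push_cast; rfl)]
      exact (h.2 w hw w' hw' hww).1)
  let f' : V → ℕ := fun w => if hw : ∃ i, p i = w then (g hw.choose).toNat else f w
  have hfp : ∀ i, f' (p i) = (g i).toNat := by
    intro i
    have hex : ∃ j, p j = p i := ⟨i, rfl⟩
    simp only [f']
    rw [dif_pos hex, hp hex.choose_spec]
  have hfS : ∀ w ∈ S, f' w = f w := by
    intro w hw
    simp only [f']
    rw [dif_neg]
    rintro ⟨i, rfl⟩
    exact hpS i hw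
  have hgc : ∀ i, (((g i).toNat : ℕ) : ℤ) = g i := fun i => Int.toNat_of_nonneg (g1 i).le
  have key : ∀ w ∈ S, ∀ i, ¬ IsSquare (f w * (g i).toNat) ∧
      (G.Adj w (p i) ↔ IsSquare (f w * (g i).toNat + 1)) := by
    intro w hw i
    have hm : (f w : ℤ) ∈ S.image (fun w => (f w : ℤ)) := Finset.mem_image_of_mem _ hw
    constructor
    · rw [isSquare_cast (z := (f w : ℤ) * g i) (by push_cast; rw [hgc])]
      exact g2 _ hm i
    · rw [isSquare_cast (z := (f w : ℤ) * g i + 1) (by push_cast; rw [hgc]), g3 _ hm i, hS i w hw]
      constructor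
      · rintro (⟨h1, h2⟩ | ⟨h1, h2⟩)
        · left; exact ⟨h1, by rw [h2]⟩
        · right; exact ⟨h1, by rw [h2]⟩
      · rintro (⟨h1, h2⟩ | ⟨h1, h2⟩)
        · left; exact ⟨h1, h.inj hw hu (by exact_mod_cast h2)⟩
        · right; exact ⟨h1, h.inj hw hv (by exact_mod_cast h2)⟩
  refine ⟨f', ?_, ?_⟩
  · intro w hw
    rcases Finset.mem_union.mp hw with hw | hw
    · rw [hfS w hw]; exact h.1 w hw
    · obtain ⟨i, _, rfl⟩ := Finset.mem_image.mp hw
      rw [hfp]
      have := g1 i
      omega
  · have hsymm : ∀ w w' : V, (¬ IsSquare (f' w * f' w') ∧ (G.Adj w w' ↔ IsSquare (f' w * f' w' + 1))) →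
        (¬ IsSquare (f' w' * f' w) ∧ (G.Adj w' w ↔ IsSquare (f' w' * f' w + 1))) := by
      intro w w' hww
      rw [mul_comm (f' w'), G.adj_comm w' w]
      exact hww
    intro w hw w' hw' hne
    rcases Finset.mem_union.mp hw with hw | hw <;> rcases Finset.mem_union.mp hw' with hw' | hw'
    · rw [hfS w hw, hfS w' hw']
      exact h.2 w hw w' hw' hne
    · obtain ⟨i, _, rfl⟩ := Finset.mem_image.mp hw'
      rw [hfS w hw, hfp]
      exact key w hw i
    · obtain ⟨i, _, rfl⟩ := Finset.mem_image.mp hw
      apply hsymm
      rw [hfS w' hw', hfp]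
      exact key w' hw' i
    · obtain ⟨i, _, rfl⟩ := Finset.mem_image.mp hw
      obtain ⟨j, _, rfl⟩ := Finset.mem_image.mp hw'
      have hij : i ≠ j := by rintro rfl; exact hne rfl
      rw [hfp, hfp, hpp i j hij]
      constructor
      · rw [isSquare_cast (z := g i * g j) (by push_cast; rw [hgc, hgc])]
        exact g4 i j hij
      · rw [isSquare_cast (z := g i * g j + 1) (by push_cast; rw [hgc, hgc])]
        exact (g5 i j hij).symm

theorem inj4 {a b c d : V} (hab : a ≠ b) (hac : a ≠ c) (had : a ≠ d) (hbc : b ≠ c) (hbd : b ≠ d)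
    (hcd : c ≠ d) : Function.Injective ![c, a, b, d] := by
  intro i j hij
  fin_cases i <;> fin_cases j <;>
    first
      | rfl
      | (exfalso; first
          | exact hab hij | exact hab hij.symm | exact hac hij | exact hac hij.symm
          | exact had hij | exact had hij.symm | exact hbc hij | exact hbc hij.symm
          | exact hbd hij | exact hbd hij.symm | exact hcd hij | exact hcd hij.symm)

theorem adj4 {a b c d : V} (hab : G.Adj a b) (hac : G.Adj a c) (had : G.Adj a d)
    (hbc : G.Adj b c) (hbd : G.Adj b d) (hcd : ¬ G.Adj c d) (i j : Fin 4) (hij : i ≠ j) :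
    (G.Adj (![c, a, b, d] i) (![c, a, b, d] j) ↔ ¬ ((i = 0 ∧ j = 3) ∨ (i = 3 ∧ j = 0))) := by
  have key : ∀ (P Q : Prop), (P ∧ Q) ∨ (¬ P ∧ ¬ Q) → (P ↔ Q) := by intro P Q; tauto
  apply key
  fin_cases i <;> fin_cases j
  · exact absurd rfl hij
  · exact Or.inl ⟨hac.symm, by decide⟩
  · exact Or.inl ⟨hbc.symm, by decide⟩
  · exact Or.inr ⟨hcd, by decide⟩
  · exact Or.inl ⟨hac, by decide⟩
  · exact absurd rfl hij
  · exact Or.inl ⟨hab, by decide⟩
  · exact Or.inl ⟨had, by decide⟩
  · exact Or.inl ⟨hbc, by decide⟩
  · exact Or.inl ⟨hab.symm, by decide⟩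
  · exact absurd rfl hij
  · exact Or.inl ⟨hbd, by decide⟩
  · exact Or.inr ⟨fun h => hcd h.symm, by decide⟩
  · exact Or.inl ⟨had.symm, by decide⟩
  · exact Or.inl ⟨hbd.symm, by decide⟩
  · exact absurd rfl hij

/-- The induction. -/
theorem strong_all (G : SimpleGraph V)
    (H : ∀ S : Finset V, S.Nonempty →
      (∀ v ∈ S, ∃ N : Finset V, N.card = 3 ∧ N ⊆ S ∧ ∀ w, G.Adj v w ↔ w ∈ N) ∨
      (∃ v ∈ S, ∃ x y : V, ∀ w ∈ S, G.Adj w v → w = x ∨ w = y))
    (H' : ∀ S : Finset V, S.Nonempty →
      (∀ v ∈ S, ∃ N : Finset V, N.card = 3 ∧ N ⊆ S ∧ ∀ w, G.Adj v w ↔ w ∈ N) →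
      ∃ a ∈ S, ∃ b c d, G.Adj a b ∧ G.Adj a c ∧ G.Adj a d ∧ G.Adj b c ∧ G.Adj b d ∧ c ≠ d) :
    ∀ (k : ℕ) (S : Finset V), S.card = k → ∃ f : V → ℕ, Strong G S f := by
  intro k
  induction k using Nat.strong_induction_on with
  | _ k ih =>
  intro S hSk
  rcases S.eq_empty_or_nonempty with rfl | hne
  · exact ⟨fun _ => 1, by simp [Strong]⟩
  rcases H S hne with hcub | ⟨v, hv, x, y, hxy⟩
  · obtain ⟨a, ha, b, c, d, hab, hac, had, hbc, hbd, hcd⟩ := H' S hne hcub
    -- neighbours of the vertices of S
    have hclosed : ∀ v ∈ S, ∀ w, G.Adj v w → w ∈ S := by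
      intro v hv w hvw
      obtain ⟨N, _, hN2, hN3⟩ := hcub v hv
      exact hN2 ((hN3 w).mp hvw)
    have hthree : ∀ v ∈ S, ∀ p q r, G.Adj v p → G.Adj v q → G.Adj v r → p ≠ q → p ≠ r → q ≠ r →
        ∀ w, G.Adj v w → w = p ∨ w = q ∨ w = r := by
      intro v hv p q r hp hq hr hpq hpr hqr w hw
      obtain ⟨N, hN1, _, hN3⟩ := hcub v hv
      have hsub : ({p, q, r} : Finset V) ⊆ N := by
        intro z hz
        simp only [Finset.mem_insert, Finset.mem_singleton] at hz
        rcases hz with rfl | rfl | rfl
        · exact (hN3 _).mp hp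
        · exact (hN3 _).mp hq
        · exact (hN3 _).mp hr
      have hcard : ({p, q, r} : Finset V).card = 3 := by
        rw [Finset.card_eq_three]
        exact ⟨p, q, r, hpq, hpr, hqr, rfl⟩
      have heq : ({p, q, r} : Finset V) = N := Finset.eq_of_subset_of_card_le hsub (by omega)
      have : w ∈ N := (hN3 w).mp hw
      rw [← heq] at this
      simpa using this
    have hthird : ∀ v ∈ S, ∀ p q, ∃ r, G.Adj v r ∧ r ≠ p ∧ r ≠ q := by
      intro v hv p q
      obtain ⟨N, hN1, _, hN3⟩ := hcub v hv
      have hlt : ({p, q} : Finset V).card < N.card := by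
        have := Finset.card_le_two (a := p) (b := q)
        omega
      obtain ⟨r, hr, hr'⟩ := Finset.exists_mem_notMem_of_card_lt_card hlt
      simp only [Finset.mem_insert, Finset.mem_singleton, not_or] at hr'
      exact ⟨r, (hN3 r).mpr hr, hr'.1, hr'.2⟩
    have hb : b ∈ S := hclosed a ha b hab
    have hc : c ∈ S := hclosed a ha c hac
    have hd : d ∈ S := hclosed a ha d had
    have na : ∀ w, G.Adj a w → w = b ∨ w = c ∨ w = d :=
      hthree a ha b c d hab hac had hbc.ne hbd.ne hcd
    have nb : ∀ w, G.Adj b w → w = a ∨ w = c ∨ w = d :=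
      hthree b hb a c d hab.symm hbc hbd hac.ne had.ne hcd
    set S' : Finset V := (((S.erase a).erase b).erase c).erase d with hS'
    have hmem : ∀ w, w ∈ S' ↔ w ∈ S ∧ w ≠ a ∧ w ≠ b ∧ w ≠ c ∧ w ≠ d := by
      intro w
      simp only [hS', Finset.mem_erase]
      tauto
    have hcard : S'.card < k := by
      rw [← hSk]
      apply Finset.card_lt_card
      refine ⟨fun w hw => ((hmem w).mp hw).1, fun hsub => ?_⟩
      exact ((hmem a).mp (hsub ha)).2.1 rfl
    obtain ⟨f, hf⟩ := ih _ hcard S' rfl
    by_cases hcd' : G.Adj c d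
    · -- K_4
      have nc : ∀ w, G.Adj c w → w = a ∨ w = b ∨ w = d :=
        hthree c hc a b d hac.symm hbc.symm hcd' hab.ne had.ne hbd.ne
      have nd : ∀ w, G.Adj d w → w = a ∨ w = b ∨ w = c :=
        hthree d hd a b c had.symm hbd.symm hcd'.symm hab.ne hac.ne hbc.ne
      obtain ⟨f1, hf1⟩ := add_vertex hf a (by rw [hmem]; tauto) a a (by
        intro w hw hwa
        have h1 := (hmem w).mp hw
        rcases na w hwa.symm with h2 | h2 | h2
        · exact absurd h2 h1.2.2.1
        · exact absurd h2 h1.2.2.2.1
        · exact absurd h2 h1.2.2.2.2)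
      obtain ⟨f2, hf2⟩ := add_vertex hf1 b (by
          rw [Finset.mem_insert, hmem]
          rintro (h1 | h1)
          · exact hab.ne h1.symm
          · exact h1.2.2.1 rfl) a a (by
        intro w hw hwb
        rcases Finset.mem_insert.mp hw with h1 | h1
        · exact Or.inl h1
        · have h1 := (hmem w).mp h1
          rcases nb w hwb.symm with h2 | h2 | h2
          · exact Or.inl h2
          · exact absurd h2 h1.2.2.2.1
          · exact absurd h2 h1.2.2.2.2)
      have hS2 : ∀ w, w ∈ insert b (insert a S') ↔ w ∈ S ∧ w ≠ c ∧ w ≠ d := by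
        intro w
        rw [Finset.mem_insert, Finset.mem_insert, hmem]
        constructor
        · rintro (rfl | rfl | h1)
          · exact ⟨hb, hbc.ne, hbd.ne⟩
          · exact ⟨ha, hac.ne, had.ne⟩
          · exact ⟨h1.1, h1.2.2.2⟩
        · rintro ⟨h1, h2, h3⟩
          by_cases h4 : w = b
          · exact Or.inl h4
          · by_cases h5 : w = a
            · exact Or.inr (Or.inl h5)
            · exact Or.inr (Or.inr ⟨h1, h5, h4, h2, h3⟩)
      obtain ⟨f3, hf3⟩ := add_path hf2 a b 2 (fun i => if i = 0 then c else d)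
        (by rw [hS2]; exact ⟨ha, hac.ne, had.ne⟩) (by rw [hS2]; exact ⟨hb, hbc.ne, hbd.ne⟩) hab
        (by
          intro i hi
          rw [hS2]
          rintro ⟨_, h2, h3⟩
          by_cases h4 : i = 0
          · rw [if_pos h4] at h2; exact h2 rfl
          · rw [if_neg h4] at h3; exact h3 rfl)
        (by
          intro i hi j hj hij
          by_cases h4 : i = 0 <;> by_cases h5 : j = 0
          · omega
          · rw [if_pos h4, if_neg h5] at hij; exact absurd hij hcd
          · rw [if_neg h4, if_pos h5] at hij; exact absurd hij.symm hcd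
          · omega)
        (by
          intro i hi w hw
          rw [hS2] at hw
          by_cases h4 : i = 0
          · rw [if_pos h4]
            constructor
            · intro h5
              rcases nc w h5.symm with h6 | h6 | h6
              · exact Or.inl h6
              · exact Or.inr h6
              · exact absurd h6 hw.2.2
            · rintro (rfl | rfl)
              · exact hac
              · exact hbc
          · rw [if_neg h4]
            constructor
            · intro h5
              rcases nd w h5.symm with h6 | h6 | h6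
              · exact Or.inl h6
              · exact Or.inr h6
              · exact absurd h6 hw.2.1
            · rintro (rfl | rfl)
              · exact had
              · exact hbd)
        (by
          intro i j hij hj
          have h1 : i = 0 := by omega
          have h2 : j = 1 := by omega
          subst h1 h2
          simp only [zero_add, iff_true]
          exact hcd')
      refine ⟨f3, ?_⟩
      have : insert b (insert a S') ∪ (Finset.range 2).image (fun i => if i = 0 then c else d) = S := by
        ext w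
        rw [Finset.mem_union, hS2, Finset.mem_image]
        constructor
        · rintro (h1 | ⟨i, _, rfl⟩)
          · exact h1.1
          · split_ifs
            · exact hc
            · exact hd
        · intro h1
          by_cases h2 : w = c
          · right; exact ⟨0, by simp, by simp [h2]⟩
          · by_cases h3 : w = d
            · right; exact ⟨1, by simp, by simp [h3]⟩
            · left; exact ⟨h1, h2, h3⟩
      rwa [this] at hf3
    · -- diamond
      obtain ⟨x, hcx, hxa, hxb⟩ := hthird c hc a b
      obtain ⟨y, hdy, hya, hyb⟩ := hthird d hd a b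
      · have hxS : x ∈ S := hclosed c hc x hcx
        have hyS : y ∈ S := hclosed d hd y hdy
        have nc : ∀ w, G.Adj c w → w = a ∨ w = b ∨ w = x :=
          hthree c hc a b x hac.symm hbc.symm hcx hab.ne hxa.symm hxb.symm
        have nd : ∀ w, G.Adj d w → w = a ∨ w = b ∨ w = y :=
          hthree d hd a b y had.symm hbd.symm hdy hab.ne hya.symm hyb.symm
        have hxd : x ≠ d := by rintro rfl; exact hcd' hcx
        have hyc : y ≠ c := by rintro rfl; exact hcd' hdy.symm
        obtain ⟨f', hf'⟩ := add_diamond hf x y ((hmem x).mpr ⟨hxS, hxa, hxb, hcx.ne', hxd⟩)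
          ((hmem y).mpr ⟨hyS, hya, hyb, hyc, hdy.ne'⟩) ![c, a, b, d]
          (inj4 hab.ne hac.ne had.ne hbc.ne hbd.ne hcd)
          (by
            intro i hi
            have := (hmem _).mp hi
            fin_cases i
            · exact this.2.2.2.1 rfl
            · exact this.2.1 rfl
            · exact this.2.2.1 rfl
            · exact this.2.2.2.2 rfl)
          (by
            intro i w hw
            have hw' := (hmem w).mp hw
            fin_cases i
            · show G.Adj w c ↔ _
              constructor
              · intro h1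
                rcases nc w h1.symm with h2 | h2 | h2
                · exact absurd h2 hw'.2.1
                · exact absurd h2 hw'.2.2.1
                · left; exact ⟨rfl, h2⟩
              · rintro (⟨_, h2⟩ | ⟨h1, _⟩)
                · rw [h2]; exact hcx.symm
                · exact absurd h1 (by decide)
            · show G.Adj w a ↔ _
              constructor
              · intro h1
                rcases na w h1.symm with h2 | h2 | h2
                · exact absurd h2 hw'.2.2.1
                · exact absurd h2 hw'.2.2.2.1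
                · exact absurd h2 hw'.2.2.2.2
              · rintro (⟨h1, _⟩ | ⟨h1, _⟩)
                · exact absurd h1 (by decide)
                · exact absurd h1 (by decide)
            · show G.Adj w b ↔ _
              constructor
              · intro h1
                rcases nb w h1.symm with h2 | h2 | h2
                · exact absurd h2 hw'.2.1
                · exact absurd h2 hw'.2.2.2.1
                · exact absurd h2 hw'.2.2.2.2
              · rintro (⟨h1, _⟩ | ⟨h1, _⟩)
                · exact absurd h1 (by decide)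
                · exact absurd h1 (by decide)
            · show G.Adj w d ↔ _
              constructor
              · intro h1
                rcases nd w h1.symm with h2 | h2 | h2
                · exact absurd h2 hw'.2.1
                · exact absurd h2 hw'.2.2.1
                · right; exact ⟨rfl, h2⟩
              · rintro (⟨h1, _⟩ | ⟨_, h2⟩)
                · exact absurd h1 (by decide)
                · rw [h2]; exact hdy.symm)
          (adj4 hab hac had hbc hbd hcd')
        refine ⟨f', ?_⟩
        have : S' ∪ Finset.univ.image ![c, a, b, d] = S := by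
          ext w
          rw [Finset.mem_union, hmem, Finset.mem_image]
          constructor
          · rintro (h1 | ⟨i, _, rfl⟩)
            · exact h1.1
            · fin_cases i
              · exact hc
              · exact ha
              · exact hb
              · exact hd
          · intro h1
            by_cases h2 : w = c
            · right; exact ⟨0, by simp, by simp [h2]⟩
            · by_cases h3 : w = a
              · right; exact ⟨1, by simp, by simp [h3]⟩
              · by_cases h4 : w = b
                · right; exact ⟨2, by simp, by simp [h4]⟩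
                · by_cases h5 : w = d
                  · right; exact ⟨3, by simp, by simp [h5]⟩
                  · left; exact ⟨h1, h3, h4, h2, h5⟩
        rwa [this] at hf'
  · have hcard : (S.erase v).card < k := by
      rw [← hSk]
      exact Finset.card_erase_lt_of_mem hv
    obtain ⟨f, hf⟩ := ih _ hcard (S.erase v) rfl
    obtain ⟨f', hf'⟩ := add_vertex hf v (Finset.notMem_erase v S) x y
      (fun w hw => hxy w (Finset.mem_of_mem_erase hw))
    rw [Finset.insert_erase hv] at hf'
    exact ⟨f', hf'⟩

end Pool.Agent.Helper59.DM
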