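import Pool.Agent.Helper59.DM.Thn

namespace Pool.Agent.Helper59.DM

open Pool.Agent.Helper56.Dio Filter

section
variable {a b s t : ℤ}

/-- The label at the vector `(p, q)` of the form `c U^2 + 2 X U V + a V^2`. -/
def Lq (a b s t p q : ℤ) (n : ℕ) : ℤ :=
  p ^ 2 * cc a b s t n + 2 * p * q * X a b s t n + q ^ 2 * a

theorem Lq_a (h : s ^ 2 - a * b * t ^ 2 = 1) (p q : ℤ) (n : ℕ) :
    a * Lq a b s t p q n + p ^ 2 = (p * X a b s t n + q * a) ^ 2 := by
  unfold Lq
  linear_combination p ^ 2 * cc_X h n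

theorem Lq_mul (h : s ^ 2 - a * b * t ^ 2 = 1) (p q p' q' : ℤ) (n : ℕ) :
    Lq a b s t p q n * Lq a b s t p' q' n + (p * q' - p' * q) ^ 2 =
      (p * p' * cc a b s t n + (p * q' + p' * q) * X a b s t n + q * q' * a) ^ 2 := by
  unfold Lq
  linear_combination (p * q' - p' * q) ^ 2 * cc_X h n

theorem Lq_b (h : s ^ 2 - a * b * t ^ 2 = 1) (p q : ℤ) (n : ℕ) :
    b * Lq a b s t p q n = p ^ 2 * Y a b s t n ^ 2 + 2 * p * q * b * X a b s t n +
      q ^ 2 * a * b - p ^ 2 := by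
  unfold Lq
  linear_combination p ^ 2 * cc_Y h n

theorem X_le_aY (ha : 0 < a) (hb : 0 < b) (hs : 1 ≤ s) (ht : 1 ≤ t) (n : ℕ) :
    X a b s t n ≤ a * Y a b s t n := by
  obtain ⟨h1, h2⟩ := st_pos ha hb hs ht n
  have h3 : 0 ≤ (st (a * b) s t n).2 := le_trans (by positivity) h2
  unfold X Y
  have h4 : (st (a * b) s t n).1 ≤ a * (st (a * b) s t n).1 := by nlinarith
  have h5 : a * (st (a * b) s t n).2 ≤ a * (b * (st (a * b) s t n).2) :=
    mul_le_mul_of_nonneg_left (by nlinarith) ha.le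
  linarith

/-- The new labels, except the first, are not related to `b`. -/
theorem Lq_b_not (ha : 0 < a) (hb : 0 < b) (hab : ¬ IsSquare (a * b)) (hs : 1 ≤ s) (ht : 1 ≤ t)
    (h : s ^ 2 - a * b * t ^ 2 = 1) (p q ε : ℤ) (hp : 1 ≤ p) (hq : q ≠ 0) :
    ∃ N : ℕ, ∀ n, N ≤ n → ¬ IsSquare (b * Lq a b s t p q n + ε) := by
  set K0 : ℤ := q ^ 2 * a * b - p ^ 2 + ε with hK0
  set U : ℤ := |2 * p * q * b| * a + |K0| with hU
  have hp0 : p ≠ 0 := by linarith
  have hpqb0 : 2 * p * q * b ≠ 0 := by positivity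
  have hne : ∀ u : ℤ, ¬ (2 * p * u = 0 ∧ -(2 * p * q * b) = 0) := by
    rintro u ⟨_, h2⟩
    exact hpqb0 (neg_eq_zero.mp h2)
  choose M hM using fun u : ℤ => lin ha hb hab hs ht h (2 * p * u) (-(2 * p * q * b))
    (K0 - u ^ 2) (hne u)
  refine ⟨(∑ u ∈ Finset.Icc (-U) U, |M u|).toNat, fun n hn => ?_⟩
  have hMn : ∀ u ∈ Finset.Icc (-U) U, M u < X a b s t n := by
    intro u hu
    have h1 : |M u| ≤ ∑ u ∈ Finset.Icc (-U) U, |M u| :=
      Finset.single_le_sum (f := fun u => |M u|) (fun _ _ => abs_nonneg _) hu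
    have h2 := X_ge ha hb hs ht n
    have h3 := Int.self_le_toNat (∑ u ∈ Finset.Icc (-U) U, |M u|)
    have h4 : ((∑ u ∈ Finset.Icc (-U) U, |M u|).toNat : ℤ) ≤ n := by exact_mod_cast hn
    have h5 := le_abs_self (M u)
    linarith
  rintro ⟨w₀, hw₀⟩
  obtain ⟨w, hw0, hw⟩ : ∃ w : ℤ, 0 ≤ w ∧ b * Lq a b s t p q n + ε = w ^ 2 :=
    ⟨|w₀|, abs_nonneg _, by rw [hw₀, sq_abs]; ring⟩
  rw [Lq_b h] at hw
  set x := X a b s t n with hx
  set y := Y a b s t n with hy
  have hy1 : 1 ≤ y := Y_pos ha hb hs ht n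
  have hxy : x ≤ a * y := X_le_aY ha hb hs ht n
  have hx0 : 0 < x := by
    have h2 := X_ge ha hb hs ht n
    have h0 : (0 : ℤ) ≤ n := Int.natCast_nonneg n
    linarith
  have hrel : (w - p * y) ^ 2 + 2 * p * y * (w - p * y) = 2 * p * q * b * x + K0 := by
    rw [hK0]
    linear_combination (-1) * hw
  set u := w - p * y with hu
  have hpy : y ≤ p * y := le_mul_of_one_le_left (by linarith) hp
  have huU : |u| ≤ U := by
    have h1 : |u| * (w + p * y) = |2 * p * q * b * x + K0| := by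
      rw [← abs_of_nonneg (show 0 ≤ w + p * y by linarith), ← abs_mul, ← hrel, hu]
      congr 1
      ring
    have h2 : |2 * p * q * b * x + K0| ≤ |2 * p * q * b| * (a * y) + |K0| * y := by
      calc |2 * p * q * b * x + K0| ≤ |2 * p * q * b * x| + |K0| := abs_add_le _ _
        _ = |2 * p * q * b| * x + |K0| := by rw [abs_mul, abs_of_pos hx0]
        _ ≤ |2 * p * q * b| * (a * y) + |K0| * y := by
          have h3 := mul_le_mul_of_nonneg_left hxy (abs_nonneg (2 * p * q * b))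
          have h4 : |K0| * 1 ≤ |K0| * y := mul_le_mul_of_nonneg_left hy1 (abs_nonneg K0)
          linarith
    have h3 : |u| * y ≤ |u| * (w + p * y) :=
      mul_le_mul_of_nonneg_left (by linarith) (abs_nonneg u)
    have h4 : |u| * y ≤ U * y := by
      rw [hU]
      calc |u| * y ≤ |2 * p * q * b| * (a * y) + |K0| * y := by linarith
        _ = (|2 * p * q * b| * a + |K0|) * y := by ring
    exact le_of_mul_le_mul_right h4 (by linarith)
  exact hM u n (hMn u (Finset.mem_Icc.mpr (abs_le.mp huU))) (by linear_combination hrel)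

end

end Pool.Agent.Helper59.DM
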