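import Pool.Agent.Helper56.DioGraph

namespace Pool.Agent.Helper59.DM

open Pool.Agent.Helper56.Dio Filter

section
variable {a b s t : ℤ}

/-- No fixed nontrivial linear relation `P Y + Q X = K` holds for large `n`. -/
theorem lin (ha : 0 < a) (hb : 0 < b) (hab : ¬ IsSquare (a * b)) (hs : 1 ≤ s) (ht : 1 ≤ t)
    (h : s ^ 2 - a * b * t ^ 2 = 1) (P Q K : ℤ) (hPQ : ¬ (P = 0 ∧ Q = 0)) :
    ∃ M : ℤ, ∀ n : ℕ, M < X a b s t n → P * Y a b s t n + Q * X a b s t n = K → False := by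
  refine ⟨|a * K ^ 2 - P ^ 2 * (a - b)| + |2 * a * K * Q|, fun n hn hrel => ?_⟩
  set x := X a b s t n with hx
  set y := Y a b s t n with hy
  have hxy : a * y ^ 2 = b * x ^ 2 + a - b := XY_rel h n
  have hx1 : 1 ≤ x := by
    have := X_ge ha hb hs ht n
    have h0 : (0 : ℤ) ≤ n := Int.natCast_nonneg n
    linarith
  have e1 : x * ((a * Q ^ 2 - b * P ^ 2) * x - 2 * a * K * Q) = -(a * K ^ 2 - P ^ 2 * (a - b)) := by
    have e2 : P * y = K - Q * x := by linarith
    have e3 : a * (P * y) ^ 2 = P ^ 2 * (b * x ^ 2 + a - b) := by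
      rw [← hxy]; ring
    rw [e2] at e3
    linear_combination e3
  have h1 : a * K ^ 2 - P ^ 2 * (a - b) = 0 := by
    by_contra hne
    have hdvd : x ∣ a * K ^ 2 - P ^ 2 * (a - b) :=
      (dvd_neg).mp ⟨_, e1.symm⟩
    have h2 := Int.le_of_dvd (abs_pos.mpr hne) ((dvd_abs _ _).mpr hdvd)
    have h3 := abs_nonneg (2 * a * K * Q)
    linarith
  rw [h1, neg_zero] at e1
  have e4 : (a * Q ^ 2 - b * P ^ 2) * x = 2 * a * K * Q := by
    rcases mul_eq_zero.mp e1 with h2 | h2
    · linarith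
    · linarith
  have h5 : 2 * a * K * Q = 0 := by
    by_contra hne
    have hdvd : x ∣ 2 * a * K * Q := ⟨a * Q ^ 2 - b * P ^ 2, by rw [← e4]; ring⟩
    have h2 := Int.le_of_dvd (abs_pos.mpr hne) ((dvd_abs _ _).mpr hdvd)
    have h3 := abs_nonneg (a * K ^ 2 - P ^ 2 * (a - b))
    linarith
  rw [h5] at e4
  have h6 : a * Q ^ 2 = b * P ^ 2 := by
    rcases mul_eq_zero.mp e4 with h7 | h7
    · linarith
    · linarith
  -- now `a b P^2 = (a Q)^2`
  have h7 : a * b * P ^ 2 = (a * Q) ^ 2 := by linear_combination (-a) * h6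
  by_cases hP : P = 0
  · rw [hP] at h6
    have h8 : a * Q ^ 2 = 0 := by rw [h6]; ring
    rcases mul_eq_zero.mp h8 with h9 | h9
    · exact ha.ne' h9
    · exact hPQ ⟨hP, pow_eq_zero_iff two_ne_zero |>.mp h9⟩
  · have hdvd : P ∣ a * Q := by
      rw [← Int.pow_dvd_pow_iff (two_ne_zero)]
      exact ⟨a * b, by rw [← h7]; ring⟩
    obtain ⟨k, hk⟩ := hdvd
    apply hab
    refine ⟨k, ?_⟩
    have hP0 : P ^ 2 ≠ 0 := pow_ne_zero 2 hP
    have : P ^ 2 * (a * b) = P ^ 2 * (k * k) := by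
      rw [mul_comm, h7, hk]; ring
    exact mul_left_cancel₀ hP0 this

/-- The rigidity argument for the shifted sequence `p X + β`. -/
theorem core' (ha : 0 < a) (hb : 0 < b) (hab : ¬ IsSquare (a * b)) (hs : 1 ≤ s) (ht : 1 ≤ t)
    (h : s ^ 2 - a * b * t ^ 2 = 1) (p β : ℤ) (hp : 0 < p) (d m : ℤ) (hbd : ¬ IsSquare (b * d))
    (j : ℕ) (hj : 1 ≤ j) (u v : ℤ) : ∃ M : ℤ, ∀ n : ℕ, M < X a b s t n → ∀ w : ℤ,
      w ^ 2 = a * d * (p * X a b s t n + β) ^ 2 - m →
      p * X a b s t (n + j) + β = (p * X a b s t n + β) * u + w * v → False := by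
  obtain ⟨hsj, htj⟩ := st_pos ha hb hs ht j
  set sj := (st (a * b) s t j).1 with hsjd
  set tj := (st (a * b) s t j).2 with htjd
  have htj1 : 1 ≤ tj := le_trans (by exact_mod_cast hj) htj
  set A : ℤ := p ^ 2 * (sj - u) ^ 2 + p ^ 2 * (a * b) * tj ^ 2 - v ^ 2 * (a * d) * p ^ 2 with hA
  set C : ℤ := 2 * p ^ 2 * a * tj * (sj - u) with hC
  set ρ : ℤ := 2 * p * β * (1 - u) * (sj - u) - 2 * v ^ 2 * (a * d) * p * β with hρ
  set τ : ℤ := 2 * p * β * (1 - u) * (a * tj) with hτ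
  set σ : ℤ := β ^ 2 * (1 - u) ^ 2 + p ^ 2 * tj ^ 2 * a * (a - b) - v ^ 2 * (a * d) * β ^ 2 +
    v ^ 2 * m with hσ
  set L : ℤ := |τ| * b + |σ| with hL
  by_cases hAC : C = 0 ∧ A = 0
  · -- the coefficients vanish: contradiction
    exfalso
    obtain ⟨hC0, hA0⟩ := hAC
    have hsu : sj - u = 0 := by
      rw [hC] at hC0
      rcases mul_eq_zero.mp hC0 with h1 | h1
      · exfalso
        have : 0 < 2 * p ^ 2 * a * tj := by positivity
        linarith
      · exact h1
    rw [hA, hsu] at hA0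
    have h2 : a * p ^ 2 * (b * tj ^ 2 - v ^ 2 * d) = 0 := by linear_combination hA0
    have h3 : b * tj ^ 2 = v ^ 2 * d := by
      rcases mul_eq_zero.mp h2 with h4 | h4
      · exact absurd h4 (by positivity)
      · linarith
    have e7 : b * d * tj ^ 2 = (v * d) ^ 2 := by linear_combination d * h3
    have hdvd : tj ∣ v * d := by
      rw [← Int.pow_dvd_pow_iff (two_ne_zero)]
      exact ⟨b * d, by rw [← e7]; ring⟩
    obtain ⟨k, hk⟩ := hdvd
    apply hbd
    refine ⟨k, ?_⟩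
    have htj0 : tj ^ 2 ≠ 0 := pow_ne_zero 2 (by linarith)
    have : tj ^ 2 * (b * d) = tj ^ 2 * (k * k) := by
      rw [mul_comm, e7, hk]; ring
    exact mul_left_cancel₀ htj0 this
  · choose M hM using fun K : ℤ => lin ha hb hab hs ht h C A K hAC
    obtain ⟨M', hM'⟩ : ∃ M' : ℤ, ∀ K ∈ Finset.Icc (-(L + |ρ|)) (L + |ρ|), M K ≤ M' := by
      refine ⟨∑ K ∈ Finset.Icc (-(L + |ρ|)) (L + |ρ|), |M K|, fun K hK => ?_⟩
      exact (le_abs_self _).trans (Finset.single_le_sum (f := fun K => |M K|)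
        (fun _ _ => abs_nonneg _) hK)
    refine ⟨M', fun n hn w hw hx => ?_⟩
    set x := X a b s t n with hxd
    set y := Y a b s t n with hyd
    have hadd : X a b s t (n + j) = sj * x + a * tj * y := X_add n j
    have hrel : a * y ^ 2 = b * x ^ 2 + a - b := XY_rel h n
    have hx1 : 1 ≤ x := by
      have := X_ge ha hb hs ht n
      have h0 : (0 : ℤ) ≤ n := Int.natCast_nonneg n
      linarith
    have hy1 : 1 ≤ y := Y_pos ha hb hs ht n
    have hyx : y ≤ b * x := Y_le ha hb hs ht n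
    have e1 : x * (A * x + C * y + ρ) = -(τ * y + σ) := by
      have e2 : (p * (sj - u) * x + p * (a * tj) * y + β * (1 - u)) ^ 2 =
          v ^ 2 * (a * d * (p * x + β) ^ 2 - m) := by
        rw [← hw]
        have : p * (sj - u) * x + p * (a * tj) * y + β * (1 - u) = w * v := by
          rw [hadd] at hx
          linear_combination hx
        rw [this]; ring
      rw [hA, hC, hρ, hτ, hσ]
      linear_combination e2 - p ^ 2 * a * tj ^ 2 * hrel
    set K := A * x + C * y + ρ with hK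
    have hKb : |K| ≤ L := by
      have h1 : |x| * |K| = |τ * y + σ| := by
        rw [← abs_mul, e1, abs_neg]
      have h2 : |τ * y + σ| ≤ |τ| * (b * x) + |σ| * x := by
        calc |τ * y + σ| ≤ |τ * y| + |σ| := abs_add_le _ _
          _ = |τ| * y + |σ| := by rw [abs_mul, abs_of_pos (by linarith : 0 < y)]
          _ ≤ |τ| * (b * x) + |σ| * x := by
            have h3 := mul_le_mul_of_nonneg_left hyx (abs_nonneg τ)
            have h4 : |σ| * 1 ≤ |σ| * x := mul_le_mul_of_nonneg_left hx1 (abs_nonneg σ)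
            linarith
      rw [abs_of_pos (by linarith : 0 < x)] at h1
      have h5 : x * |K| ≤ x * L := by
        rw [h1, hL]
        calc |τ * y + σ| ≤ |τ| * (b * x) + |σ| * x := h2
          _ = x * (|τ| * b + |σ|) := by ring
      exact le_of_mul_le_mul_left h5 (by linarith)
    have hKρ : K - ρ ∈ Finset.Icc (-(L + |ρ|)) (L + |ρ|) := by
      rw [Finset.mem_Icc]
      have h6 := abs_le.mp hKb
      have h7 := neg_abs_le ρ
      have h8 := le_abs_self ρ
      constructor <;> linarith [h6.1, h6.2]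
    exact hM (K - ρ) n (lt_of_le_of_lt (hM' _ hKρ) hn) (by rw [hK]; ring)

end

end Pool.Agent.Helper59.DM
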