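import Pool.Agent.Helper59.DM.Dia

/-!
The labels of a diamond both of whose ends have the same further neighbour.
-/

namespace Pool.Agent.Helper59.DM

open Pool.Agent.Helper56.Dio Filter

section
variable {a b s t : ℤ}

theorem lab_thin (ha : 0 < a) (hb : 0 < b) (hab : ¬ IsSquare (a * b)) (hs : 1 ≤ s) (ht : 1 ≤ t)
    (h : s ^ 2 - a * b * t ^ 2 = 1) (p q : ℤ) (hp : 1 ≤ p) (e ε : ℤ) (he : 0 < e)
    (hbe : ¬ IsSquare (b * e)) (hm : e * p ^ 2 ≠ a * ε) :
    Thin {n | IsSquare (e * Lq a b s t p q n + ε)} := by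
  refine Thin.mono (sq_thin' ha hb hab hs ht h p (q * a) (by linarith) e
    (a * (e * p ^ 2 - a * ε)) he (mul_ne_zero ha.ne' (sub_ne_zero.mpr hm)) hbe) ?_
  rintro n ⟨w, hw⟩
  refine ⟨a * w, ?_⟩
  show a * e * (p * X a b s t n + q * a) ^ 2 - a * (e * p ^ 2 - a * ε) = a * w * (a * w)
  rw [← Lq_a h p q n]
  linear_combination a ^ 2 * hw

theorem pell_even (ha : 0 < a) (hb : 0 < b) (hab : ¬ IsSquare (a * b)) :
    ∃ s t : ℤ, 1 ≤ s ∧ 1 ≤ t ∧ 2 ∣ t ∧ s ^ 2 - a * b * t ^ 2 = 1 := by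
  obtain ⟨s, t, hs, ht, hst⟩ := pell_nat a.toNat b.toNat (by omega) (by omega) (by
    rw [isSquare_cast (z := a * b)]
    · exact hab
    · push_cast
      rw [Int.toNat_of_nonneg ha.le, Int.toNat_of_nonneg hb.le])
  have h1 : (s : ℤ) ^ 2 = (a.toNat : ℤ) * (b.toNat : ℤ) * (t : ℤ) ^ 2 + 1 := by
    exact_mod_cast hst
  rw [Int.toNat_of_nonneg ha.le, Int.toNat_of_nonneg hb.le] at h1
  have hs' : (1 : ℤ) ≤ s := by exact_mod_cast hs
  have ht' : (1 : ℤ) ≤ t := by exact_mod_cast ht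
  refine ⟨2 * (s : ℤ) ^ 2 - 1, 2 * (s : ℤ) * t, ?_, ?_, ⟨(s : ℤ) * t, by ring⟩, ?_⟩
  · nlinarith
  · nlinarith
  · linear_combination (4 * (s : ℤ) ^ 2) * h1

theorem st_even {E : ℤ} (ht : 2 ∣ t) (n : ℕ) : 2 ∣ (st E s t n).2 := by
  induction n with
  | zero => exact ⟨0, by simp [st]⟩
  | succ n ih =>
    simp only [st]
    exact dvd_add (Dvd.dvd.mul_left ih s) (Dvd.dvd.mul_right ht _)

theorem four_dvd_cc (ht : 2 ∣ t) (n : ℕ) : 4 ∣ cc a b s t n := by
  obtain ⟨k, hk⟩ := st_even (s := s) (E := a * b) ht n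
  refine ⟨k * ((a + b) * k + (st (a * b) s t n).1), ?_⟩
  unfold cc
  rw [hk]
  ring

theorem cc_ge (ha : 0 < a) (hb : 0 < b) (hs : 1 ≤ s) (ht : 1 ≤ t) (n : ℕ) :
    (n : ℤ) ≤ cc a b s t n := by
  obtain ⟨h1, h2⟩ := st_pos ha hb hs ht n
  have h0 : (0 : ℤ) ≤ n := Int.natCast_nonneg n
  have h3 : 0 ≤ (a + b) * (st (a * b) s t n).2 := mul_nonneg (by linarith) (by linarith)
  unfold cc
  calc (n : ℤ) ≤ (st (a * b) s t n).2 := h2
    _ ≤ (st (a * b) s t n).2 * ((a + b) * (st (a * b) s t n).2 + 2 * (st (a * b) s t n).1) :=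
      le_mul_of_one_le_right (by linarith) (by linarith)

end

theorem not_sq_pred {P B : ℤ} (hP : 1 ≤ P) (h : P + 1 = B ^ 2) : ¬ IsSquare P := by
  have e : P = |B| ^ 2 - 1 := by rw [sq_abs]; linarith
  have hB : 2 ≤ |B| := by
    by_contra hcon
    push Not at hcon
    have h0 := abs_nonneg B
    have h1 : |B| ^ 2 ≤ 1 := by nlinarith
    rw [sq_abs] at h1
    linarith
  rw [e]
  exact not_sq_near one_pos (by linarith) (by linarith)

/-- A label with exactly one neighbour among the old labels, divisible by four. -/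
theorem lab_four (D : Finset ℤ) (x B : ℤ) (hx : x ∈ D) (hpos : ∀ e ∈ D, 0 < e)
    (hD : ∀ e ∈ D, ∀ e' ∈ D, e ≠ e' → ¬ IsSquare (e * e')) :
    ∃ c : ℤ, B < c ∧ IsSquare (x * (4 * c) + 1) ∧ ∀ e ∈ D, ¬ IsSquare (e * (4 * c)) ∧
      (e ≠ x → ¬ IsSquare (e * (4 * c) + 1)) := by
  have hx0 := hpos x hx
  set M : ℤ := ∑ e ∈ D, e with hM
  have hle : ∀ e ∈ D, e ≤ M := fun e he =>
    Finset.single_le_sum (f := fun e => e) (fun i hi => (hpos i hi).le) he
  have hM1 : 1 ≤ M := by have := hle x hx; omega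
  set a : ℤ := x * (M ^ 2 + 1) with ha
  have hMM : M < M ^ 2 + 1 := by nlinarith
  have haM : M < a := by
    have h1 : M ^ 2 + 1 ≤ a := le_mul_of_one_le_left (by positivity) hx0
    linarith
  have ha0 : 0 < a := by linarith
  have hns : ¬ IsSquare (a * x) := by
    intro h1
    have e1 : a * x = x ^ 2 * (M ^ 2 + 1) := by rw [ha]; ring
    rw [e1] at h1
    have h2 := sq_of_mul_sq hx0.ne' h1
    have e2 : M ^ 2 + 1 = (M + 1) ^ 2 - 2 * M := by ring
    rw [e2] at h2
    exact not_sq_near (by linarith) (by linarith) (by linarith) h2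
  obtain ⟨s, t, hs, ht, hte, hst⟩ := pell_even ha0 hx0 hns
  have hthin : Thin (⋃ e ∈ D.filter (fun e => e ≠ x),
      ({n | IsSquare (e * Lq a x s t 1 0 n + 1)} ∪ {n | IsSquare (e * Lq a x s t 1 0 n + 0)})) := by
    refine thin_biUnion _ _ (fun e he => ?_)
    obtain ⟨heD, hex⟩ := Finset.mem_filter.mp he
    have he0 := hpos e heD
    have heM := hle e heD
    have hbe : ¬ IsSquare (x * e) := hD x hx e heD (Ne.symm hex)
    refine Thin.union (lab_thin ha0 hx0 hns hs ht hst 1 0 le_rfl e 1 he0 hbe ?_)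
      (lab_thin ha0 hx0 hns hs ht hst 1 0 le_rfl e 0 he0 hbe ?_)
    · intro h1
      linarith
    · intro h1
      linarith
  obtain ⟨n, hnN, hgood⟩ := hthin.gap 1 (4 * (|B| + 1)).toNat
  have hgood := hgood 0 one_pos
  rw [add_zero] at hgood
  have hn1 : 4 * (|B| + 1) ≤ (n : ℤ) := by
    have h2 := Int.self_le_toNat (4 * (|B| + 1))
    have h3 : ((4 * (|B| + 1)).toNat : ℤ) ≤ n := by exact_mod_cast hnN
    linarith
  have hB0 := abs_nonneg B
  have hB1 := le_abs_self B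
  have hL : Lq a x s t 1 0 n = cc a x s t n := by unfold Lq; ring
  obtain ⟨c, hc⟩ := four_dvd_cc (a := a) (b := x) (s := s) hte n
  have hcn := cc_ge ha0 hx0 hs ht n
  have hcY := cc_Y hst n
  rw [hc] at hcn hcY
  refine ⟨c, by linarith, ⟨Y a x s t n, by rw [hcY]; ring⟩, ?_⟩
  intro e he
  by_cases hex : e = x
  · rw [hex]
    refine ⟨?_, fun h1 => absurd rfl h1⟩
    have hn3 : 1 ≤ x * (4 * c) := one_le_mul_of_one_le_of_one_le hx0 (by linarith)
    exact not_sq_pred hn3 hcY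
  · rw [Set.mem_iUnion₂] at hgood
    push Not at hgood
    have h1 := hgood e (Finset.mem_filter.mpr ⟨he, hex⟩)
    rw [Set.mem_union, not_or] at h1
    obtain ⟨h2, h3⟩ := h1
    rw [Set.mem_ofPred_eq, hL, hc] at h2 h3
    rw [add_zero] at h3
    exact ⟨h3, fun _ => h2⟩

/-- The choice of the four labels when both ends of the diamond have the same neighbour. -/
theorem dia_same (D : Finset ℤ) (x : ℤ) (hx : x ∈ D)
    (hpos : ∀ e ∈ D, 0 < e) (hD : ∀ e ∈ D, ∀ e' ∈ D, e ≠ e' → ¬ IsSquare (e * e')) :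
    ∃ g : Fin 4 → ℤ, (∀ i, 0 < g i) ∧ (∀ e ∈ D, ∀ i, ¬ IsSquare (e * g i)) ∧
      (∀ e ∈ D, ∀ i, IsSquare (e * g i + 1) ↔ (i = 0 ∧ e = x) ∨ (i = 3 ∧ e = x)) ∧
      (∀ i j, i ≠ j → ¬ IsSquare (g i * g j)) ∧
      (∀ i j, i ≠ j → (IsSquare (g i * g j + 1) ↔ ¬ ((i = 0 ∧ j = 3) ∨ (i = 3 ∧ j = 0)))) := by
  have hx0 := hpos x hx
  obtain ⟨a, haB, hxa, hDa⟩ := lab_four D x (∑ e ∈ D, e) hx hpos hD
  have hle : ∀ e ∈ D, e < a := fun e he =>
    lt_of_le_of_lt (Finset.single_le_sum (f := fun e => e) (fun i hi => (hpos i hi).le) he) haB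
  have ha0 : 0 < a := lt_trans hx0 (hle x hx)
  have hns : ¬ IsSquare (a * x) := by
    rintro ⟨w, hw⟩
    exact (hDa x hx).1 ⟨2 * w, by linear_combination 4 * hw⟩
  obtain ⟨s, t, hs, ht, hte, hst⟩ := pell_even ha0 hx0 hns
  -- the thin set
  set P : Finset (ℤ × ℤ) := {(0, 1), (0, 0), (2, 4), (2, 0), (-2, 4), (-2, 0)} with hP
  have hPε : ∀ r ∈ P, r.2 = 0 ∨ 1 ≤ r.2 := by decide
  have hthin : Thin (⋃ e ∈ D.filter (fun e => e ≠ x), (⋃ r ∈ P,
      {n | IsSquare (e * Lq a x s t 1 r.1 n + r.2)})) := by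
    refine thin_biUnion _ _ (fun e he => thin_biUnion _ _ (fun r hr => ?_))
    obtain ⟨heD, hex⟩ := Finset.mem_filter.mp he
    have he0 := hpos e heD
    have hea := hle e heD
    have hbe : ¬ IsSquare (x * e) := hD x hx e heD (Ne.symm hex)
    refine lab_thin ha0 hx0 hns hs ht hst 1 r.1 le_rfl e r.2 he0 hbe ?_
    intro h1
    rcases hPε r hr with h2 | h2
    · rw [h2] at h1
      linarith
    · have h3 : a * 1 ≤ a * r.2 := mul_le_mul_of_nonneg_left h2 ha0.le
      linarith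
  choose! N hN using fun q : ℤ => fun (hq : q ≠ 0) => fun ε : ℤ =>
    Lq_b_not ha0 hx0 hns hs ht hst 1 q ε le_rfl hq
  obtain ⟨n, hnN, hgood⟩ := hthin.gap 1
    (N 2 4 + N 2 0 + N (-2) 4 + N (-2) 0 + (4 * (a + 2)).toNat)
  have hgood := hgood 0 one_pos
  rw [add_zero] at hgood
  have hn1 : 4 * (a + 2) ≤ (n : ℤ) := by
    have h2 := Int.self_le_toNat (4 * (a + 2))
    have h3 : ((4 * (a + 2)).toNat : ℤ) ≤ n := by exact_mod_cast (by omega)
    linarith
  obtain ⟨h, hc⟩ := four_dvd_cc (a := a) (b := x) (s := s) hte n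
  have hcn := cc_ge ha0 hx0 hs ht n
  have hcX := cc_X hst n
  have hcY := cc_Y hst n
  have hXn := X_ge ha0 hx0 hs ht n
  set X' := X a x s t n with hX'
  have hL0 : Lq a x s t 1 0 n = 4 * h := by unfold Lq; rw [← hc]; ring
  have hL2 : Lq a x s t 1 2 n = 4 * (h + a + X') := by
    unfold Lq; rw [← hX', hc]; ring
  have hL2' : Lq a x s t 1 (-2) n = 4 * (h + a - X') := by
    unfold Lq; rw [← hX', hc]; ring
  rw [hc] at hcn hcX hcY
  have hha : a + 2 ≤ h := by linarith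
  have hX4 : 4 ≤ X' := by linarith
  have hg1 : 1 ≤ h + a - X' := by
    have h1 : X' ^ 2 < (h + a) ^ 2 := by nlinarith
    have h2 : X' < h + a := lt_of_pow_lt_pow_left₀ 2 (by linarith) h1
    linarith
  have hg2 : 1 ≤ h + a + X' := by linarith
  have hold : ∀ e ∈ D, e ≠ x → ∀ r ∈ P, ¬ IsSquare (e * Lq a x s t 1 r.1 n + r.2) := by
    intro e he hex r hr
    rw [Set.mem_iUnion₂] at hgood
    push Not at hgood
    have h1 := hgood e (Finset.mem_filter.mpr ⟨he, hex⟩)
    rw [Set.mem_iUnion₂] at h1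
    push Not at h1
    exact h1 r hr
  have hq : ∀ (e v : ℤ) , ¬ IsSquare (e * (4 * v) + 4) → ¬ IsSquare (e * v + 1) := by
    rintro e v h1 ⟨w, hw⟩
    exact h1 ⟨2 * w, by linear_combination 4 * hw⟩
  have hq0 : ∀ (e v : ℤ) , ¬ IsSquare (e * (4 * v) + 0) → ¬ IsSquare (e * v) := by
    rintro e v h1 ⟨w, hw⟩
    exact h1 ⟨2 * w, by linear_combination 4 * hw⟩
  -- the facts for the two middle labels
  have hmid : ∀ e ∈ D, (¬ IsSquare (e * (h + a - X')) ∧ ¬ IsSquare (e * (h + a - X') + 1)) ∧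
      (¬ IsSquare (e * (h + a + X')) ∧ ¬ IsSquare (e * (h + a + X') + 1)) := by
    intro e he
    by_cases hex : e = x
    · rw [hex]
      have m1 := hN 2 (by norm_num) 4 n (by omega)
      have m2 := hN 2 (by norm_num) 0 n (by omega)
      have m3 := hN (-2) (by norm_num) 4 n (by omega)
      have m4 := hN (-2) (by norm_num) 0 n (by omega)
      rw [hL2] at m1 m2
      rw [hL2'] at m3 m4
      exact ⟨⟨hq0 _ _ m4, hq _ _ m3⟩, ⟨hq0 _ _ m2, hq _ _ m1⟩⟩
    · have m1 := hold e he hex (2, 4) (by rw [hP]; decide)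
      have m2 := hold e he hex (2, 0) (by rw [hP]; decide)
      have m3 := hold e he hex (-2, 4) (by rw [hP]; decide)
      have m4 := hold e he hex (-2, 0) (by rw [hP]; decide)
      simp only at m1 m2 m3 m4
      rw [hL2] at m1 m2
      rw [hL2'] at m3 m4
      exact ⟨⟨hq0 _ _ m4, hq _ _ m3⟩, ⟨hq0 _ _ m2, hq _ _ m1⟩⟩
  have hend : ∀ e ∈ D, ¬ IsSquare (e * (4 * h)) ∧ (IsSquare (e * (4 * h) + 1) ↔ e = x) := by
    intro e he
    by_cases hex : e = x
    · rw [hex]
      refine ⟨?_, fun _ => rfl, fun _ => ⟨_, by rw [hcY]; ring⟩⟩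
      exact not_sq_pred (one_le_mul_of_one_le_of_one_le hx0 (by linarith)) hcY
    · have m1 := hold e he hex (0, 1) (by rw [hP]; decide)
      have m2 := hold e he hex (0, 0) (by rw [hP]; decide)
      simp only at m1 m2
      rw [hL0] at m1 m2
      rw [add_zero] at m2
      exact ⟨m2, fun h1 => absurd h1 m1, fun h1 => absurd h1 hex⟩
  have hfst : ∀ e ∈ D, ¬ IsSquare (e * (4 * a)) ∧ (IsSquare (e * (4 * a) + 1) ↔ e = x) := by
    intro e he
    refine ⟨(hDa e he).1, fun h1 => ?_, fun h1 => by rw [h1]; exact hxa⟩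
    by_contra hex
    exact (hDa e he).2 hex h1
  have hpair : ∀ i j : Fin 4, i ≠ j →
      (∃ B : ℤ, ![4 * a, h + a - X', h + a + X', 4 * h] i *
        ![4 * a, h + a - X', h + a + X', 4 * h] j + 1 = B ^ 2) ∧
        ¬ ((i = 0 ∧ j = 3) ∨ (i = 3 ∧ j = 0)) ∨
      (![4 * a, h + a - X', h + a + X', 4 * h] i *
        ![4 * a, h + a - X', h + a + X', 4 * h] j = (2 * X') ^ 2 - 4 ∧
        ((i = 0 ∧ j = 3) ∨ (i = 3 ∧ j = 0))) := by
    intro i j hij
    fin_cases i <;> fin_cases j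
    · exact absurd rfl hij
    · exact Or.inl ⟨⟨X' - 2 * a, by
        show 4 * a * (h + a - X') + 1 = (X' - 2 * a) ^ 2
        linear_combination hcX⟩, by decide⟩
    · exact Or.inl ⟨⟨X' + 2 * a, by
        show 4 * a * (h + a + X') + 1 = (X' + 2 * a) ^ 2
        linear_combination hcX⟩, by decide⟩
    · exact Or.inr ⟨by
        show 4 * a * (4 * h) = (2 * X') ^ 2 - 4
        linear_combination 4 * hcX, by decide⟩
    · exact Or.inl ⟨⟨X' - 2 * a, by
        show (h + a - X') * (4 * a) + 1 = (X' - 2 * a) ^ 2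
        linear_combination hcX⟩, by decide⟩
    · exact absurd rfl hij
    · exact Or.inl ⟨⟨h - a, by
        show (h + a - X') * (h + a + X') + 1 = (h - a) ^ 2
        linear_combination hcX⟩, by decide⟩
    · exact Or.inl ⟨⟨X' - 2 * h, by
        show (h + a - X') * (4 * h) + 1 = (X' - 2 * h) ^ 2
        linear_combination hcX⟩, by decide⟩
    · exact Or.inl ⟨⟨X' + 2 * a, by
        show (h + a + X') * (4 * a) + 1 = (X' + 2 * a) ^ 2
        linear_combination hcX⟩, by decide⟩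
    · exact Or.inl ⟨⟨h - a, by
        show (h + a + X') * (h + a - X') + 1 = (h - a) ^ 2
        linear_combination hcX⟩, by decide⟩
    · exact absurd rfl hij
    · exact Or.inl ⟨⟨X' + 2 * h, by
        show (h + a + X') * (4 * h) + 1 = (X' + 2 * h) ^ 2
        linear_combination hcX⟩, by decide⟩
    · exact Or.inr ⟨by
        show 4 * h * (4 * a) = (2 * X') ^ 2 - 4
        linear_combination 4 * hcX, by decide⟩
    · exact Or.inl ⟨⟨X' - 2 * h, by
        show 4 * h * (h + a - X') + 1 = (X' - 2 * h) ^ 2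
        linear_combination hcX⟩, by decide⟩
    · exact Or.inl ⟨⟨X' + 2 * h, by
        show 4 * h * (h + a + X') + 1 = (X' + 2 * h) ^ 2
        linear_combination hcX⟩, by decide⟩
    · exact absurd rfl hij
  have hgpos : ∀ i : Fin 4, 1 ≤ ![4 * a, h + a - X', h + a + X', 4 * h] i := by
    intro i
    fin_cases i
    · show 1 ≤ 4 * a
      linarith
    · exact hg1
    · exact hg2
    · show 1 ≤ 4 * h
      linarith
  refine ⟨![4 * a, h + a - X', h + a + X', 4 * h], fun i => by linarith [hgpos i], ?_, ?_, ?_, ?_⟩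
  · intro e he i
    fin_cases i
    · exact (hfst e he).1
    · exact (hmid e he).1.1
    · exact (hmid e he).2.1
    · exact (hend e he).1
  · intro e he i
    fin_cases i
    · show IsSquare (e * (4 * a) + 1) ↔ _
      rw [(hfst e he).2]
      constructor
      · intro h1; exact Or.inl ⟨rfl, h1⟩
      · rintro (⟨_, h1⟩ | ⟨h1, _⟩)
        · exact h1
        · exact absurd h1 (by decide)
    · show IsSquare (e * (h + a - X') + 1) ↔ _
      constructor
      · intro h1; exact absurd h1 (hmid e he).1.2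
      · rintro (⟨h1, _⟩ | ⟨h1, _⟩)
        · exact absurd h1 (by decide)
        · exact absurd h1 (by decide)
    · show IsSquare (e * (h + a + X') + 1) ↔ _
      constructor
      · intro h1; exact absurd h1 (hmid e he).2.2
      · rintro (⟨h1, _⟩ | ⟨h1, _⟩)
        · exact absurd h1 (by decide)
        · exact absurd h1 (by decide)
    · show IsSquare (e * (4 * h) + 1) ↔ _
      rw [(hend e he).2]
      constructor
      · intro h1; exact Or.inr ⟨rfl, h1⟩
      · rintro (⟨h1, _⟩ | ⟨_, h1⟩)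
        · exact absurd h1 (by decide)
        · exact h1
  · intro i j hij
    rcases hpair i j hij with ⟨⟨B, hB⟩, _⟩ | ⟨h1, _⟩
    · exact not_sq_pred (one_le_mul_of_one_le_of_one_le (hgpos i) (hgpos j)) hB
    · rw [h1]
      exact not_sq_near (by norm_num) (by linarith) (by linarith)
  · intro i j hij
    rcases hpair i j hij with ⟨⟨B, hB⟩, h2⟩ | ⟨h1, h2⟩
    · rw [hB]
      exact ⟨fun _ => h2, fun _ => ⟨B, by ring⟩⟩
    · rw [h1]
      constructor
      · intro h3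
        exfalso
        have e3 : (2 * X') ^ 2 - 4 + 1 = (2 * X') ^ 2 - 3 := by ring
        rw [e3] at h3
        exact not_sq_near (by norm_num) (by linarith) (by linarith) h3
      · intro h3; exact absurd h2 h3

end Pool.Agent.Helper59.DM
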