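import Pool.Agent.Helper59.DM.Lin

namespace Pool.Agent.Helper59.DM

open Pool.Agent.Helper56.Dio Filter

section
variable {a b s t : ℤ}

/-- The shifted sequence. -/
def Zs (a b s t p β : ℤ) (n : ℕ) : ℤ := p * X a b s t n + β

/-- A colour class of the bad set. -/
def Bad' (a b s t p β d m : ℤ) (r r' : ZMod m.natAbs) : Set ℕ :=
  {n | ∃ w : ℤ, 0 ≤ w ∧ w ^ 2 = a * d * Zs a b s t p β n ^ 2 - m ∧
    ((Zs a b s t p β n : ℤ) : ZMod m.natAbs) = r ∧ ((w : ℤ) : ZMod m.natAbs) = r'}

theorem bad_sparse' (ha : 0 < a) (hb : 0 < b) (hab : ¬ IsSquare (a * b)) (hs : 1 ≤ s)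
    (ht : 1 ≤ t) (h : s ^ 2 - a * b * t ^ 2 = 1) (p β : ℤ) (hp0 : 0 < p)
    (d m : ℤ) (hd : 0 < d) (hm : m ≠ 0)
    (hbd : ¬ IsSquare (b * d)) (r r' : ZMod m.natAbs) : Sparse (Bad' a b s t p β d m r r') := by
  intro j hj
  obtain ⟨hsj, htj⟩ := st_pos ha hb hs ht j
  set C := (st (a * b) s t j).1 + a * b * (st (a * b) s t j).2 with hC
  have htj0 : 0 ≤ (st (a * b) s t j).2 := le_trans (by positivity) htj
  have hC1 : 1 ≤ C := by
    have : 0 ≤ a * b * (st (a * b) s t j).2 := by positivity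
    linarith
  set C' := 2 * C + 1 with hC'
  set U := |m| + 1 + C' with hU
  choose M hM using fun u v => core' ha hb hab hs ht h p β hp0 d m hbd j hj u v
  have hev : ∀ᶠ n : ℕ in atTop, ∀ u ∈ Finset.Icc (-U) U, ∀ v ∈ Finset.Icc (-U) U,
      M u v < X a b s t n := by
    rw [eventually_all_finset]
    intro u _
    rw [eventually_all_finset]
    intro v _
    filter_upwards [eventually_ge_atTop (M u v).toNat] with n hn
    have h1 := X_ge ha hb hs ht n
    have h2 := Int.self_le_toNat (M u v)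
    have h3 : ((M u v).toNat : ℤ) ≤ n := by exact_mod_cast hn
    linarith
  filter_upwards [hev, eventually_ge_atTop (2 * |β| + 1).toNat] with n hn hnβ
  rintro ⟨⟨w, hw0, hw, hr, hr'⟩, ⟨w', hw0', hw', hrr, hrr'⟩⟩
  have hxle0 : X a b s t n ≤ X a b s t (n + j) := X_mono ha hb hs ht n j
  have hxC0 : X a b s t (n + j) ≤ C * X a b s t n := X_le ha hb hs ht n j
  have hXβ : 2 * |β| + 1 ≤ X a b s t n := by
    have h1 := X_ge ha hb hs ht n
    have h2 := Int.self_le_toNat (2 * |β| + 1)
    have h3 : ((2 * |β| + 1).toNat : ℤ) ≤ n := by exact_mod_cast hnβ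
    linarith
  have hβ0 := abs_nonneg β
  have hβ1 := neg_abs_le β
  have hβ2 := le_abs_self β
  have hX0 : 0 ≤ X a b s t n := by linarith
  have hpX : X a b s t n ≤ p * X a b s t n := le_mul_of_one_le_left hX0 hp0
  set x := Zs a b s t p β n with hx
  set x' := Zs a b s t p β (n + j) with hx'
  have hxx' : m ∣ x' - x := by
    have h1 : ((x' - x : ℤ) : ZMod m.natAbs) = 0 := by
      push_cast
      rw [hr, hrr, sub_self]
    rw [ZMod.intCast_zmod_eq_zero_iff_dvd] at h1
    exact Int.natAbs_dvd.mp h1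
  have hww' : m ∣ w' - w := by
    have h1 : ((w' - w : ℤ) : ZMod m.natAbs) = 0 := by
      push_cast
      rw [hr', hrr', sub_self]
    rw [ZMod.intCast_zmod_eq_zero_iff_dvd] at h1
    exact Int.natAbs_dvd.mp h1
  obtain ⟨p', hp⟩ := hxx'
  obtain ⟨q', hq⟩ := hww'
  have hx1 : x' = x + m * p' := by linarith
  have hw1 : w' = w + m * q' := by linarith
  -- the unit
  set u : ℤ := 1 - w * q' + a * d * x * p' with hu
  set v : ℤ := x * q' - w * p' with hv
  have eu : w * w' - a * d * x * x' = -m * u := by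
    rw [hu, hw1, hx1]; linear_combination hw
  have ev : x' * w - x * w' = -m * v := by
    rw [hv, hw1, hx1]; ring
  have exu : x' = x * u + w * v := by
    have : m * (x' - (x * u + w * v)) = 0 := by
      linear_combination x' * hw - w * ev - x * eu
    have := (mul_eq_zero.mp this).resolve_left hm
    linarith
  have enorm : u ^ 2 - a * d * v ^ 2 = 1 := by
    have : m ^ 2 * (u ^ 2 - a * d * v ^ 2 - 1) = 0 := by
      have h1 : (m * u) ^ 2 - a * d * (m * v) ^ 2 = m ^ 2 := by
        have h2 : m * u = -(w * w' - a * d * x * x') := by linarith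
        have h3 : m * v = -(x' * w - x * w') := by linarith
        rw [h2, h3]
        linear_combination (w' ^ 2 - a * d * x' ^ 2) * hw + (-m) * hw'
      linear_combination h1
    have := (mul_eq_zero.mp this).resolve_left (pow_ne_zero 2 hm)
    linarith
  have hD : 1 ≤ a * d := by nlinarith
  have hxpos : 1 ≤ x := by
    rw [hx, Zs]
    linarith
  have hxle : x ≤ x' := by
    rw [hx, hx', Zs, Zs]
    have := mul_le_mul_of_nonneg_left hxle0 hp0.le
    linarith
  have hxC : x' ≤ C' * x := by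
    rw [hx, hx', Zs, Zs]
    have h1 := mul_le_mul_of_nonneg_left hxC0 hp0.le
    have h2 : (C + 1) * (2 * |β|) ≤ (C + 1) * (p * X a b s t n) :=
      mul_le_mul_of_nonneg_left (by linarith) (by linarith)
    have h3 : C' * (-|β|) ≤ C' * β := mul_le_mul_of_nonneg_left hβ1 (by rw [hC']; linarith)
    rw [hC'] at h3 ⊢
    calc p * X a b s t (n + j) + β ≤ p * (C * X a b s t n) + |β| := by linarith
      _ ≤ (2 * C + 1) * (p * X a b s t n) + (2 * C + 1) * (-|β|) := by linarith
      _ ≤ (2 * C + 1) * (p * X a b s t n) + (2 * C + 1) * β := by linarith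
      _ = (2 * C + 1) * (p * X a b s t n + β) := by ring
  have hx0 : 0 ≤ x := by linarith
  have hx0' : 0 ≤ x' := by linarith
  have had : 0 ≤ a * d := by linarith
  have hadx : 0 ≤ a * d * x * x' := mul_nonneg (mul_nonneg had hx0) hx0'
  have hww0 : 0 ≤ w * w' := mul_nonneg hw0 hw0'
  have hub : |u| ≤ U := by
    have h1 : |u| * (w * w' + a * d * x * x') = |m - a * d * (x ^ 2 + x' ^ 2)| := by
      have h2 : |m| * (|u| * (w * w' + a * d * x * x')) = |m| * |m - a * d * (x ^ 2 + x' ^ 2)| := by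
        have h3 : 0 ≤ w * w' + a * d * x * x' := by linarith
        rw [← abs_of_nonneg h3, ← abs_mul, ← abs_mul, ← abs_mul]
        have h4 : m * (u * (w * w' + a * d * x * x')) = -(m * (m - a * d * (x ^ 2 + x' ^ 2))) := by
          have h5 : m * u = -(w * w' - a * d * x * x') := by linarith
          calc m * (u * (w * w' + a * d * x * x')) = (m * u) * (w * w' + a * d * x * x') := by ring
            _ = -(w * w' - a * d * x * x') * (w * w' + a * d * x * x') := by rw [h5]
            _ = -(m * (m - a * d * (x ^ 2 + x' ^ 2))) := by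
              linear_combination (-(w' ^ 2)) * hw + (-(a * d * x ^ 2 - m)) * hw'
        rw [h4, abs_neg]
      exact mul_left_cancel₀ (abs_ne_zero.mpr hm) h2
    have h2 : |m - a * d * (x ^ 2 + x' ^ 2)| ≤ |m| + a * d * (x ^ 2 + x' ^ 2) := by
      have h3 : 0 ≤ a * d * (x ^ 2 + x' ^ 2) := mul_nonneg had (by positivity)
      calc |m - a * d * (x ^ 2 + x' ^ 2)| ≤ |m| + |a * d * (x ^ 2 + x' ^ 2)| := abs_sub _ _
        _ = |m| + a * d * (x ^ 2 + x' ^ 2) := by rw [abs_of_nonneg h3]
    have h3 : |u| * (a * d * x * x') ≤ |u| * (w * w' + a * d * x * x') :=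
      mul_le_mul_of_nonneg_left (by linarith) (abs_nonneg u)
    have h4 : 1 ≤ a * d * x * x' := by
      have e1 : 1 ≤ a * d * x := one_le_mul_of_one_le_of_one_le hD hxpos
      exact one_le_mul_of_one_le_of_one_le e1 (hxpos.trans hxle)
    have h5 : x ^ 2 + x' ^ 2 ≤ (1 + C') * (x * x') := by
      have e1 : x ^ 2 ≤ x * x' := by
        rw [sq]
        exact mul_le_mul_of_nonneg_left hxle hx0
      have e2 : x' ^ 2 ≤ C' * (x * x') := by
        have := mul_le_mul_of_nonneg_right hxC hx0'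
        calc x' ^ 2 = x' * x' := sq x'
          _ ≤ C' * x * x' := this
          _ = C' * (x * x') := by ring
      linarith
    have h6 : a * d * (x ^ 2 + x' ^ 2) ≤ (1 + C') * (a * d * x * x') := by
      have := mul_le_mul_of_nonneg_left h5 had
      calc a * d * (x ^ 2 + x' ^ 2) ≤ a * d * ((1 + C') * (x * x')) := this
        _ = (1 + C') * (a * d * x * x') := by ring
    have h7 : |m| ≤ |m| * (a * d * x * x') := le_mul_of_one_le_right (abs_nonneg m) h4
    have h8 : |u| * (a * d * x * x') ≤ U * (a * d * x * x') := by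
      rw [hU]
      calc |u| * (a * d * x * x') ≤ |m| + a * d * (x ^ 2 + x' ^ 2) := by linarith
        _ ≤ |m| * (a * d * x * x') + (1 + C') * (a * d * x * x') := by linarith
        _ = (|m| + 1 + C') * (a * d * x * x') := by ring
    exact le_of_mul_le_mul_right h8 (by linarith)
  have hvb : |v| ≤ |u| := by
    rw [← sq_le_sq]
    have : v ^ 2 ≤ a * d * v ^ 2 := le_mul_of_one_le_left (sq_nonneg v) hD
    linarith
  have huI : u ∈ Finset.Icc (-U) U := Finset.mem_Icc.mpr (abs_le.mp hub)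
  have hvI : v ∈ Finset.Icc (-U) U := Finset.mem_Icc.mpr (abs_le.mp (hvb.trans hub))
  exact hM u v n (hn u huI v hvI) w hw exu

/-- The set of `n` with `a d x_n ^ 2 - m` a square is thin. -/
theorem sq_thin' (ha : 0 < a) (hb : 0 < b) (hab : ¬ IsSquare (a * b)) (hs : 1 ≤ s)
    (ht : 1 ≤ t) (h : s ^ 2 - a * b * t ^ 2 = 1) (p β : ℤ) (hp0 : 0 < p)
    (d m : ℤ) (hd : 0 < d) (hm : m ≠ 0) (hbd : ¬ IsSquare (b * d)) :
    Thin {n | IsSquare (a * d * Zs a b s t p β n ^ 2 - m)} := by
  have : NeZero m.natAbs := ⟨Int.natAbs_ne_zero.mpr hm⟩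
  refine ⟨ZMod m.natAbs × ZMod m.natAbs, inferInstance,
    fun i => Bad' a b s t p β d m i.1 i.2,
    fun i => bad_sparse' ha hb hab hs ht h p β hp0 d m hd hm hbd _ _, ?_⟩
  rintro n ⟨w, hw⟩
  refine Set.mem_iUnion.mpr ⟨(((Zs a b s t p β n : ℤ) : ZMod m.natAbs), ((|w| : ℤ) : ZMod m.natAbs)), ?_⟩
  exact ⟨|w|, abs_nonneg w, by rw [sq_abs, hw]; ring, rfl, rfl⟩

end

end Pool.Agent.Helper59.DM
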